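import Pool.Agent.Helper61.LN.Goals

/-!
# PROJECT LN (MP_c65973_gt), packet CONISO: the connected sum respects isotopies
-/

set_option autoImplicit false

namespace Pool.Agent.Helper14.LN.CONISO

open Pool.Agent.Helper31.Sk Pool.Agent.Helper35.Skl Pool.Agent.Helper61.LN

theorem no_closed {x y : Word} (h : Elem x y) (h1 : Legal 0 x 0) (h2 : Legal 0 y 0) : False := by
  rcases h with ⟨i, j, g, h⟩ | i | i | i | i | i | i | i | i | i | i | i | i | i | i <;>
    first
    | (rcases g with _ | _ | _ | _ <;> rcases h with _ | _ | _ | _ <;>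
        simp only [Legal, Gen.src, Gen.tgt] at h1 h2 <;> omega)
    | (simp only [Legal, Gen.src, Gen.tgt] at h1 h2; omega)

theorem step_con (h : S_SLIDE) {T : Word} (hT : Pool.Agent.Helper61.LN.Good T) {w w' : Word}
    (hs : Step 0 0 w w') (hk : IsKnot w) : Iso 0 0 (con T w) (con T w') := by
  have hk' : IsKnot w' := (iso_isKnot (Relation.EqvGen.rel _ _ hs)).1 hk
  obtain ⟨u, x, y, v, he, h1, h2⟩ := hs
  obtain ⟨k, hk1, hv⟩ := legal_append.1 h1
  obtain ⟨j, hu, hx⟩ := legal_append.1 hk1
  obtain ⟨k', hk2, hv'⟩ := legal_append.1 h2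
  obtain ⟨j', hu', hy⟩ := legal_append.1 hk2
  obtain rfl := legal_unique hu hu'
  obtain rfl := elem_legal he hx hy
  rcases Nat.eq_zero_or_pos k with rfl | hkp
  · rcases Nat.eq_zero_or_pos j with rfl | hjp
    · exact (no_closed he hx hy).elim
    · have a1 := h T hT u (x ++ v) j 0 (by rw [← List.append_assoc]; exact hk) hu hjp
      have a2 := h T hT u (y ++ v) j 0 (by rw [← List.append_assoc]; exact hk') hu hjp
      rw [← List.append_assoc u x v, sh_zero] at a1
      rw [← List.append_assoc u y v, sh_zero] at a2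
      have lT : Legal j T j := by
        have := leg_right T 1 1 (j - 1) hT.legal
        rwa [Nat.add_sub_cancel' hjp] at this
      have b : Iso 0 0 ((u ++ T) ++ x ++ v) ((u ++ T) ++ y ++ v) :=
        iso_ctx (iso_elem he hx hy) (legal_append.2 ⟨j, hu, lT⟩) hv
      have e1 : ∀ z : Word, (u ++ T) ++ z ++ v = u ++ T ++ (z ++ v) := fun z => by simp
      rw [e1, e1] at b
      exact iso_trans a1 (iso_trans b (iso_symm a2))
  · have a1 := h T hT (u ++ x) v k 0 hk hk1 hkp
    have a2 := h T hT (u ++ y) v k 0 hk' hk2 hkp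
    rw [sh_zero] at a1 a2
    have lT : Legal k T k := by
      have := leg_right T 1 1 (k - 1) hT.legal
      rwa [Nat.add_sub_cancel' hkp] at this
    have b : Iso 0 0 (u ++ x ++ (T ++ v)) (u ++ y ++ (T ++ v)) :=
      iso_ctx (iso_elem he hx hy) hu (legal_append.2 ⟨k, lT, hv⟩)
    rw [← List.append_assoc, ← List.append_assoc (u ++ y)] at b
    exact iso_trans a1 (iso_trans b (iso_symm a2))

theorem t (h : S_SLIDE) : S_CONISO := by
  intro T hT w w' hk hi
  induction hi with
  | rel w w' hs => exact step_con h hT hs hk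
  | refl w => exact iso_refl _ _ _
  | symm w w' hi ih => exact iso_symm (ih ((iso_isKnot hi).2 hk))
  | trans w w' w'' h1 _ ih1 ih2 => exact iso_trans (ih1 hk) (ih2 ((iso_isKnot h1).1 hk))

end Pool.Agent.Helper14.LN.CONISO
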